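import Mathlib

/-!
# Sums of odd functions with bounded values
-/

set_option autoImplicit false
set_option linter.unusedSectionVars false

namespace Pool.Agent.V8H71.TC

variable {X : Type*} [Fintype X] [DecidableEq X]

/-- The function `T` is odd under the involution `c` and its absolute values are at most `b`. -/
def InBox (c : X → X) (b : X → ℕ) (T : X → ℤ) : Prop :=
  (∀ x, T (c x) = - T x) ∧ ∀ x, |T x| ≤ b x

/-- The odd function `1_x - 1_(c x)`. -/
def delta (c : X → X) (x : X) : X → ℤ := fun y => (if y = x then 1 else 0) - if y = c x then 1 else 0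

theorem delta_conj {c : X → X} (hc : ∀ x, c (c x) = x) (x : X) : delta c (c x) = - delta c x := by
  funext y
  simp only [delta, hc, Pi.neg_apply]
  ring

theorem delta_self {c : X → X} {x : X} (h : c x ≠ x) : delta c x x = 1 := by
  simp [delta, Ne.symm h]

theorem delta_odd {c : X → X} (hc : ∀ x, c (c x) = x) (x y : X) :
    delta c x (c y) = - delta c x y := by
  have h1 : (c y = x) ↔ (y = c x) := ⟨fun h => by rw [← h, hc], fun h => by rw [h, hc]⟩
  have h2 : (c y = c x) ↔ (y = x) := ⟨fun h => by rw [← hc y, h, hc], fun h => by rw [h]⟩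
  simp only [delta, h1, h2]
  ring

section

variable {c : X → X} (hc : ∀ x, c (c x) = x) {b : X → ℕ} (hb : ∀ x, b (c x) = b x)

include hc

theorem conj_ne {T : X → ℤ} (hT : InBox c b T) {x : X} (h : 0 < T x) : c x ≠ x := by
  intro h1
  have := hT.1 x
  rw [h1] at this
  omega

/-- The box is stable under `T - delta` if `T x > 0`. -/
theorem InBox.sub {T : X → ℤ} (hT : InBox c b T) {x : X} (h : 0 < T x) :
    InBox c b (T - delta c x) := by
  have hne := conj_ne hc hT h
  have h1 := hT.1 x
  refine ⟨fun y => ?_, fun y => ?_⟩
  · rw [Pi.sub_apply, Pi.sub_apply, hT.1, delta_odd hc]; ring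
  · rw [Pi.sub_apply]
    have h2 := hT.2 y
    by_cases hy : y = x
    · subst hy
      rw [delta_self hne]
      rw [abs_le] at h2 ⊢
      omega
    · by_cases hy' : y = c x
      · subst hy'
        have : delta c x (c x) = -1 := by rw [delta_odd hc, delta_self hne]
        rw [this]
        rw [abs_le] at h2 ⊢
        omega
      · have : delta c x y = 0 := by simp [delta, hy, hy']
        rw [this, sub_zero]
        exact h2

theorem InBox.delta (hb : ∀ x, b (c x) = b x) {T : X → ℤ} (hT : InBox c b T) {x : X}
    (h : 0 < T x) : InBox c b (delta c x) := by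
  have hne := conj_ne hc hT h
  refine ⟨fun y => delta_odd hc x y, fun y => ?_⟩
  have h2 := hT.2 x
  rw [abs_le] at h2
  have hbx : 1 ≤ b x := by omega
  by_cases hy : y = x
  · subst hy
    rw [delta_self hne]
    simpa using hbx
  · by_cases hy' : y = c x
    · subst hy'
      have : TC.delta c x (c x) = -1 := by rw [delta_odd hc, delta_self hne]
      rw [this, hb]
      simpa using hbx
    · have : TC.delta c x y = 0 := by simp [TC.delta, hy, hy']
      rw [this]
      simp

omit hc [Fintype X] [DecidableEq X] in
theorem InBox.neg {T : X → ℤ} (hT : InBox c b T) : InBox c b (-T) :=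
  ⟨fun x => by rw [Pi.neg_apply, Pi.neg_apply, hT.1], fun x => by
    rw [Pi.neg_apply, abs_neg]; exact hT.2 x⟩

/-- The size of an odd function. -/
def size (T : X → ℤ) : ℕ := ∑ x, (T x).natAbs

theorem size_sub {T : X → ℤ} (hT : InBox c b T) {x : X} (h : 0 < T x) :
    size (T - delta c x) < size T := by
  have hne := conj_ne hc hT h
  refine Finset.sum_lt_sum (fun y _ => ?_) ⟨x, Finset.mem_univ x, ?_⟩
  · rw [Pi.sub_apply]
    by_cases hy : y = x
    · subst hy
      rw [delta_self hne]
      omega
    · by_cases hy' : y = c x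
      · subst hy'
        have : TC.delta c x (c x) = -1 := by rw [delta_odd hc, delta_self hne]
        have h3 := hT.1 x
        rw [this]
        omega
      · have : TC.delta c x y = 0 := by simp [TC.delta, hy, hy']
        rw [this, sub_zero]
  · rw [Pi.sub_apply, delta_self hne]
    omega

/-- **Exchange.** Every family of an even number of functions in the box with sum zero is obtained
from the pairs `T`, `- T` and the relations `T = (T - delta) + delta` with `T x > 0`. -/
theorem box_generation (hb : ∀ x, b (c x) = b x) (R : Multiset (X → ℤ) → Prop) (h0 : R 0)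
    (hadd : ∀ μ ν, R μ → R ν → R (μ + ν))
    (hpair : ∀ T, InBox c b T → R {T, -T})
    (hcancel : ∀ T, InBox c b T → ∀ μ, R (T ::ₘ (-T) ::ₘ μ) → R μ)
    (h3 : ∀ T, InBox c b T → ∀ x, 0 < T x → R {T, -(T - delta c x), -delta c x, 0})
    (μ : Multiset (X → ℤ)) (hμ : ∀ T ∈ μ, InBox c b T) (he : Even (Multiset.card μ))
    (hsum : μ.sum = 0) : R μ := by
  classical
  obtain ⟨n, hn⟩ : ∃ n, n = (μ.map size).sum := ⟨_, rfl⟩
  induction n using Nat.strong_induction_on generalizing μ with
  | _ n ih =>
  have hzero : InBox c b (0 : X → ℤ) := ⟨fun x => by simp, fun x => by simp⟩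
  by_cases hall : ∀ T ∈ μ, T = 0
  · have hrep : μ = Multiset.replicate (Multiset.card μ) 0 := Multiset.eq_replicate_card.2 hall
    obtain ⟨k, hk⟩ := he
    rw [hrep, hk]
    clear hrep hk hall hsum hμ hn ih
    induction k with
    | zero => simpa using h0
    | succ k ihk =>
      have e : Multiset.replicate (k + 1 + (k + 1)) (0 : X → ℤ) =
          Multiset.replicate (k + k) 0 + {0, -0} := by
        rw [show k + 1 + (k + 1) = (k + k) + 2 by ring, Multiset.replicate_add, neg_zero]
        rfl
      rw [e]
      exact hadd _ _ ihk (hpair 0 hzero)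
  · push Not at hall
    obtain ⟨T, hTμ, hT0⟩ := hall
    obtain ⟨x, hx⟩ : ∃ x, 0 < T x := by
      by_contra hcon
      push Not at hcon
      apply hT0
      funext x
      have h1 := hcon x
      have h2 := hcon (c x)
      rw [(hμ T hTμ).1] at h2
      simp only [Pi.zero_apply]
      omega
    obtain ⟨μ₁, rfl⟩ := Multiset.exists_cons_of_mem hTμ
    have hTB := hμ T hTμ
    obtain ⟨T', hT'μ, hx'⟩ : ∃ T' ∈ μ₁, T' x < 0 := by
      by_contra hcon
      push Not at hcon
      have h1 : (T ::ₘ μ₁).sum x = 0 := by rw [hsum]; rfl
      rw [Multiset.sum_cons, Pi.add_apply] at h1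
      have h2 : 0 ≤ μ₁.sum x := by
        have h3 : μ₁.sum x = (μ₁.map fun f => f x).sum := by
          have := map_multiset_sum (Pi.evalAddMonoidHom (fun _ : X => ℤ) x) μ₁
          exact this
        rw [h3]
        exact Multiset.sum_nonneg fun y hy => by
          obtain ⟨f, hf, rfl⟩ := Multiset.mem_map.1 hy
          exact hcon f hf
      omega
    obtain ⟨ν, rfl⟩ := Multiset.exists_cons_of_mem hT'μ
    have hT'B : InBox c b T' := hμ T' (by simp)
    have hx'' : 0 < T' (c x) := by rw [hT'B.1]; omega
    have hT1 : InBox c b (T - delta c x) := hTB.sub hc hx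
    have hT2 : InBox c b (T' + delta c x) := by
      have := hT'B.sub hc hx''
      rwa [delta_conj hc, sub_neg_eq_add] at this
    have hD : InBox c b (delta c x) := hTB.delta hc hb hx
    have hs1 : size (T - delta c x) < size T := size_sub hc hTB hx
    have hs2 : size (T' + delta c x) < size T' := by
      have := size_sub hc hT'B hx''
      rwa [delta_conj hc, sub_neg_eq_add] at this
    have hR' : R ((T - delta c x) ::ₘ (T' + delta c x) ::ₘ ν) := by
      refine ih (((T - delta c x) ::ₘ (T' + delta c x) ::ₘ ν).map size).sum ?_ _ ?_ ?_ ?_ rfl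
      · rw [hn]
        simp only [Multiset.map_cons, Multiset.sum_cons]
        omega
      · intro f hf
        rcases Multiset.mem_cons.1 hf with rfl | hf
        · exact hT1
        · rcases Multiset.mem_cons.1 hf with rfl | hf
          · exact hT2
          · exact hμ f (by simp [hf])
      · simpa using he
      · rw [Multiset.sum_cons, Multiset.sum_cons] at hsum ⊢
        rw [← hsum]
        abel
    have hR1 := h3 T hTB x hx
    have hR2 := h3 T' hT'B (c x) hx''
    rw [delta_conj hc, sub_neg_eq_add, neg_neg] at hR2
    have hR := hadd _ _ hR' (hadd _ _ hR1 hR2)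
    have e : ((T - delta c x) ::ₘ (T' + delta c x) ::ₘ ν) +
        (({T, -(T - delta c x), -delta c x, 0} : Multiset (X → ℤ)) +
          ({T', -(T' + delta c x), delta c x, 0} : Multiset (X → ℤ))) =
        (T - delta c x) ::ₘ (-(T - delta c x)) ::ₘ (T' + delta c x) ::ₘ (-(T' + delta c x)) ::ₘ
          (delta c x) ::ₘ (-delta c x) ::ₘ 0 ::ₘ (-0) ::ₘ T ::ₘ T' ::ₘ ν := by
      simp only [Multiset.insert_eq_cons, ← Multiset.singleton_add, neg_zero]
      abel
    rw [e] at hR
    exact hcancel 0 hzero _ (hcancel _ hD _ (hcancel _ hT2 _ (hcancel _ hT1 _ hR)))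

end

omit [Fintype X] [DecidableEq X] in
/-- An odd function with values at most `n * b` is the sum of `n` functions in the box. -/
theorem exists_sum_box {c : X → X} {b : X → ℕ} (hb : ∀ x, b (c x) = b x) (n : ℕ) (s : X → ℤ)
    (hs : ∀ x, s (c x) = - s x) (hn : ∀ x, |s x| ≤ n * b x) :
    ∃ l : List (X → ℤ), l.length = n ∧ (∀ T ∈ l, InBox c b T) ∧ l.sum = s := by
  induction n generalizing s with
  | zero =>
    refine ⟨[], rfl, by simp, ?_⟩
    funext x
    have := hn x
    simp only [Nat.cast_zero, zero_mul, abs_nonpos_iff] at this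
    rw [this]; rfl
  | succ n ih =>
    let t : X → ℤ := fun x => max (-(b x : ℤ)) (min (s x) (b x))
    have ht : InBox c b t := by
      refine ⟨fun x => ?_, fun x => ?_⟩
      · simp only [t, hs, hb]
        omega
      · simp only [t]
        rw [abs_le]
        omega
    obtain ⟨l, hl, hlB, hls⟩ := ih (s - t) (fun x => by
      rw [Pi.sub_apply, Pi.sub_apply, hs, ht.1]; ring) (fun x => by
      have h1 := hn x
      rw [Pi.sub_apply, abs_le]
      rw [abs_le] at h1
      push_cast at h1
      have h2 : (0 : ℤ) ≤ (n : ℤ) * b x := by positivity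
      simp only [t]
      constructor
      · rcases le_total (s x) (b x) with h3 | h3
        · rcases le_total (-(b x : ℤ)) (s x) with h4 | h4
          · rw [min_eq_left h3, max_eq_right h4]; nlinarith
          · rw [min_eq_left h3, max_eq_left h4]; nlinarith
        · rw [min_eq_right h3, max_eq_right (by omega)]; nlinarith
      · rcases le_total (s x) (b x) with h3 | h3
        · rcases le_total (-(b x : ℤ)) (s x) with h4 | h4
          · rw [min_eq_left h3, max_eq_right h4]; nlinarith
          · rw [min_eq_left h3, max_eq_left h4]; nlinarith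
        · rw [min_eq_right h3, max_eq_right (by omega)]; nlinarith)
    refine ⟨t :: l, by rw [List.length_cons, hl], ?_, ?_⟩
    · intro T hT
      rcases List.mem_cons.1 hT with rfl | hT
      · exact ht
      · exact hlB T hT
    · rw [List.sum_cons, hls]
      abel

end Pool.Agent.V8H71.TC
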