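import Pool.Agent.V8H94.CT.Gtc2

/-!
# Classes supported in codimension `r` are effective
-/

set_option autoImplicit false
set_option linter.unusedSectionVars false

namespace Pool.Agent.V8H94.CT

open Module Polynomial

section Contract

variable {K M N : Type} [Field K] [AddCommGroup M] [Module K M] [AddCommGroup N] [Module K N]

theorem involute_map (h : M →ₗ[K] N) (x : ExteriorAlgebra K M) :
    CliffordAlgebra.involute (ExteriorAlgebra.map h x) =
      ExteriorAlgebra.map h (CliffordAlgebra.involute x) := by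
  induction x using ExteriorAlgebra.induction with
  | algebraMap r => simp
  | ι v =>
    rw [ExteriorAlgebra.map_apply_ι]
    have e1 : CliffordAlgebra.involute (ExteriorAlgebra.ι K (h v)) = - ExteriorAlgebra.ι K (h v) :=
      CliffordAlgebra.involute_ι _
    have e2 : CliffordAlgebra.involute (ExteriorAlgebra.ι K v) = - ExteriorAlgebra.ι K v :=
      CliffordAlgebra.involute_ι _
    rw [e1, e2, map_neg, ExteriorAlgebra.map_apply_ι]
  | mul a b ha hb => rw [map_mul, map_mul, map_mul, map_mul, ha, hb]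
  | add a b ha hb => rw [map_add, map_add, map_add, map_add, ha, hb]

theorem contract_map_mul (h : M →ₗ[K] N) (f : Module.Dual K N) (hf : ∀ v, f (h v) = 0)
    (x : ExteriorAlgebra K M) : ∀ Y : ExteriorAlgebra K N,
    CliffordAlgebra.contractLeft (Q := (0 : QuadraticForm K N)) f (ExteriorAlgebra.map h x * Y) =
      CliffordAlgebra.involute (ExteriorAlgebra.map h x) *
        CliffordAlgebra.contractLeft (Q := (0 : QuadraticForm K N)) f Y := by
  induction x using ExteriorAlgebra.induction with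
  | algebraMap r =>
    intro Y
    rw [AlgHom.commutes, AlgHom.commutes]
    exact CliffordAlgebra.contractLeft_algebraMap_mul _ _ _
  | ι v =>
    intro Y
    rw [ExteriorAlgebra.map_apply_ι]
    have e1 : CliffordAlgebra.involute (ExteriorAlgebra.ι K (h v)) = - ExteriorAlgebra.ι K (h v) :=
      CliffordAlgebra.involute_ι _
    have e2 := CliffordAlgebra.contractLeft_ι_mul (Q := (0 : QuadraticForm K N)) f (h v) Y
    rw [hf, zero_smul, zero_sub] at e2
    rw [e1, neg_mul]
    exact e2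
  | mul a b ha hb =>
    intro Y
    rw [map_mul (ExteriorAlgebra.map h), mul_assoc, ha, hb, map_mul CliffordAlgebra.involute,
      mul_assoc]
  | add a b ha hb =>
    intro Y
    rw [map_add, add_mul, map_add, ha, hb, map_add, add_mul]

theorem contract_wedge_zero (f : Module.Dual K N) (l : List N) (hl : ∀ v ∈ l, f v = 0) :
    CliffordAlgebra.contractLeft (Q := (0 : QuadraticForm K N)) f (wedge (R := K) l) = 0 := by
  induction l with
  | nil => exact CliffordAlgebra.contractLeft_one _ _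
  | cons v l ih =>
    rw [wedge_cons]
    have e2 := CliffordAlgebra.contractLeft_ι_mul (Q := (0 : QuadraticForm K N)) f v
      (wedge (R := K) l)
    rw [hl v (by simp), ih fun w hw => hl w (List.mem_cons_of_mem _ hw), zero_smul, mul_zero,
      sub_zero] at e2
    exact e2

theorem eq_zero_of_mul_wedge (h : M →ₗ[K] N) {ι : Type} [DecidableEq ι] (b : ι → N)
    (f : ι → Module.Dual K N) (hf : ∀ i v, f i (h v) = 0)
    (hfb : ∀ i j, f i (b j) = if i = j then 1 else 0) (L : List ι) (hL : L.Nodup) :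
    ∀ x : ExteriorAlgebra K M, ExteriorAlgebra.map h x * wedge (L.map b) = 0 →
      ExteriorAlgebra.map h x = 0 := by
  induction L with
  | nil => intro x hx; simpa using hx
  | cons i L ih =>
    intro x hx
    have hi := (List.nodup_cons.1 hL).1
    have h1 := congrArg (CliffordAlgebra.contractLeft (Q := (0 : QuadraticForm K N)) (f i)) hx
    rw [contract_map_mul h (f i) (hf i), map_zero, List.map_cons, wedge_cons] at h1
    have e2 := CliffordAlgebra.contractLeft_ι_mul (Q := (0 : QuadraticForm K N)) (f i) (b i)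
      (wedge (R := K) (L.map b))
    rw [hfb, if_pos rfl, one_smul, contract_wedge_zero (f i) (L.map b) (by
      intro v hv
      obtain ⟨j, hj, rfl⟩ := List.mem_map.1 hv
      rw [hfb, if_neg]
      rintro rfl
      exact hi hj), mul_zero, sub_zero] at e2
    have e3 : CliffordAlgebra.contractLeft (Q := (0 : QuadraticForm K N)) (f i)
        (ExteriorAlgebra.ι K (b i) * wedge (L.map b)) = wedge (L.map b) := e2
    rw [e3, involute_map] at h1
    have h2 := ih (List.nodup_cons.1 hL).2 _ h1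
    rw [← involute_map] at h2
    have h3 := congrArg CliffordAlgebra.involute h2
    rw [CliffordAlgebra.involute_involute, map_zero] at h3
    exact h3

end Contract

section

variable {p : ℕ} [Fact p.Prime] {Ω : Type} [Field Ω] [CharZero Ω]

/-- The exterior product with the class of a point is injective. -/
theorem eq_zero_of_mul_top {H H' : Type} [AddCommGroup H] [Module Ω H] [AddCommGroup H']
    [Module Ω H'] {N : ℕ} (b : Basis (Fin N) Ω H') (x : ExteriorAlgebra Ω H)
    (hx : ExteriorAlgebra.map (LinearMap.inl Ω H H') x *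
      ExteriorAlgebra.map (LinearMap.inr Ω H H') (ExteriorAlgebra.ιMulti Ω N b) = 0) : x = 0 := by
  classical
  have e1 : ExteriorAlgebra.map (LinearMap.inr Ω H H') (ExteriorAlgebra.ιMulti Ω N b) =
      wedge ((List.finRange N).map fun i => (LinearMap.inr Ω H H') (b i)) := by
    rw [← ofFn_wedge, map_wedge, List.map_ofFn, List.ofFn_eq_map]
    rfl
  rw [e1] at hx
  have h1 := eq_zero_of_mul_wedge (LinearMap.inl Ω H H') (fun i => (LinearMap.inr Ω H H') (b i))
    (fun i => (b.coord i).comp (LinearMap.snd Ω H H')) (by intro i v; simp) (by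
      intro i j
      simp [Finsupp.single_apply, eq_comm]) (List.finRange N) (List.nodup_finRange N) x hx
  have h2 := congrArg (ExteriorAlgebra.map (LinearMap.fst Ω H H')) h1
  rw [map_zero, ← AlgHom.comp_apply, ExteriorAlgebra.map_comp_map, LinearMap.fst_comp_inl,
    ExteriorAlgebra.map_id] at h2
  exact h2

theorem iMulti_eq_det {H : Type} [AddCommGroup H] [Module Ω H] {N : ℕ} (b : Basis (Fin N) Ω H)
    (v : Fin N → H) : ExteriorAlgebra.ιMulti Ω N v = b.det v • ExteriorAlgebra.ιMulti Ω N b := by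
  have h : ExteriorAlgebra.ιMulti Ω N =
      (LinearMap.toSpanSingleton Ω (ExteriorAlgebra Ω H)
        (ExteriorAlgebra.ιMulti Ω N b)).compAlternatingMap b.det := by
    refine b.ext_alternating fun σ hσ => ?_
    let e : Equiv.Perm (Fin N) := Equiv.ofBijective σ (Finite.injective_iff_bijective.1 hσ)
    have h1 := (ExteriorAlgebra.ιMulti Ω N (M := H)).map_perm b e
    have h2 := b.det.map_perm b e
    rw [b.det_self] at h2
    change ExteriorAlgebra.ιMulti Ω N (b ∘ e) = b.det (b ∘ e) • ExteriorAlgebra.ιMulti Ω N b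
    rw [h1, h2, smul_assoc, one_smul]
  exact congrArg (fun g => g v) h

theorem map_top {H : Type} [AddCommGroup H] [Module Ω H] [FiniteDimensional Ω H] {N : ℕ}
    (b : Basis (Fin N) Ω H) (F : H →ₗ[Ω] H) :
    ExteriorAlgebra.map F (ExteriorAlgebra.ιMulti Ω N b) =
      LinearMap.det F • ExteriorAlgebra.ιMulti Ω N b := by
  rw [ExteriorAlgebra.map_apply_ιMulti, iMulti_eq_det b, b.det_comp, b.det_self, mul_one]

theorem map_top_pow {H : Type} [AddCommGroup H] [Module Ω H] [FiniteDimensional Ω H] {N : ℕ}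
    (b : Basis (Fin N) Ω H) (F : H →ₗ[Ω] H) (s : ℕ) :
    ExteriorAlgebra.map (F ^ s) (ExteriorAlgebra.ιMulti Ω N b) =
      (LinearMap.det F) ^ s • ExteriorAlgebra.ιMulti Ω N b := by
  rw [map_top, map_pow]

/-- The determinant of Frobenius. -/
theorem coeff_sq {m : ℕ} {f : ℚ[X]} (hf : IsFrobPoly p m f) :
    (f.coeff 0) ^ 2 = ((p : ℚ) ^ m) ^ f.natDegree ∧ f.Monic := by
  induction hf with
  | one => simp
  | mul _ h ih =>
    rename_i f P e _
    obtain ⟨ih, hmon⟩ := ih
    have hP : (P.coeff 0) ^ 2 = ((p : ℚ) ^ m) ^ P.natDegree := by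
      have hsp : (P.map (algebraMap ℚ ℂ)).Splits := IsAlgClosed.splits _
      have h1 := hsp.coeff_zero_eq_prod_roots_of_monic (h.monic.map _)
      have h2 : ‖(P.map (algebraMap ℚ ℂ)).coeff 0‖ ^ 2 = ((p : ℝ) ^ m) ^ P.natDegree := by
        rw [h1, norm_mul, norm_pow, norm_neg, norm_one, one_pow, one_mul]
        have h3 : ∀ s : Multiset ℂ, (∀ z ∈ s, ‖z‖ ^ 2 = (p : ℝ) ^ m) →
            ‖s.prod‖ ^ 2 = ((p : ℝ) ^ m) ^ Multiset.card s := by
          intro s
          induction s using Multiset.induction_on with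
          | empty => intro _; simp
          | cons z s ih =>
            intro hs
            rw [Multiset.prod_cons, norm_mul, mul_pow, hs z (by simp),
              ih fun y hy => hs y (Multiset.mem_cons_of_mem hy), Multiset.card_cons, pow_succ']
        rw [h3 _ fun z hz => h.weil z (by
          rw [mem_roots (h.monic.map _).ne_zero, IsRoot.def, eval_map_algebraMap] at hz
          exact hz)]
        congr 1
        rw [← hsp.natDegree_eq_card_roots, natDegree_map]
      rw [coeff_map] at h2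
      have h4 : ‖(algebraMap ℚ ℂ) (P.coeff 0)‖ = |((P.coeff 0 : ℚ) : ℝ)| := by
        rw [eq_ratCast, ← Complex.ofReal_ratCast, Complex.norm_real, Real.norm_eq_abs]
      rw [h4, sq_abs] at h2
      exact_mod_cast h2
    have hPe : (P ^ e).Monic := h.monic.pow e
    refine ⟨?_, hmon.mul hPe⟩
    rw [mul_coeff_zero, mul_pow, ih, hmon.natDegree_mul hPe, h.monic.natDegree_pow, pow_add]
    congr 1
    rw [coeff_zero_eq_eval_zero, eval_pow, ← coeff_zero_eq_eval_zero, ← pow_mul, mul_comm e 2,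
      pow_mul, hP, ← pow_mul, mul_comm e]

theorem det_sq (C : AbVar p Ω) {N : ℕ} (b : Basis (Fin N) Ω C.H) :
    (LinearMap.det C.F) ^ 2 = ((p : Ω) ^ C.m) ^ N := by
  obtain ⟨f, hf, hc⟩ := C.frob
  obtain ⟨h1, h2⟩ := coeff_sq hf
  have hN : f.natDegree = N := by
    have h3 := LinearMap.charpoly_natDegree C.F
    rw [hc, natDegree_map, Module.finrank_eq_card_basis b, Fintype.card_fin] at h3
    exact h3
  rw [LinearMap.det_eq_sign_charpoly_coeff, hc, mul_pow, ← pow_mul, mul_comm (finrank Ω C.H) 2,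
    pow_mul, neg_one_sq, one_pow, one_mul, coeff_map, ← map_pow, h1, hN]
  simp

/-- A vector in the span of a family of vectors whose images under an injective map are
eigenvectors, and whose image lies in the sum of the eigenspaces for the eigenvalues in `M`. -/
theorem mem_span_of_map {V V' : Type} [AddCommGroup V] [Module Ω V] [AddCommGroup V']
    [Module Ω V'] (φ : V →ₗ[Ω] V') (hφ : ∀ x, φ x = 0 → x = 0) (T : Module.End Ω V') {ι : Type}
    (v : ι → V) (μ : ι → Ω) (hv : ∀ i, T (φ (v i)) = μ i • φ (v i)) (M : Set Ω) {x : V}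
    (hx : x ∈ Submodule.span Ω (Set.range v))
    (hT : φ x ∈ ⨆ c ∈ M, Module.End.eigenspace T c) :
    x ∈ Submodule.span Ω (v '' {i | μ i ∈ M}) := by
  classical
  have h0 : Set.range v = v '' {i | μ i ∈ M} ∪ v '' {i | μ i ∈ Mᶜ} := by
    rw [← Set.image_union, ← Set.image_univ]
    congr 1
    ext i
    simp only [Set.mem_univ, Set.mem_union, Set.mem_ofPred_eq, Set.mem_compl_iff, true_iff]
    exact em _
  have h1 : ∀ (M : Set Ω) (y : V), y ∈ Submodule.span Ω (v '' {i | μ i ∈ M}) →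
      φ y ∈ ⨆ c ∈ M, Module.End.eigenspace T c := by
    intro M y hy
    have h2 : Submodule.span Ω (v '' {i | μ i ∈ M}) ≤
        (⨆ c ∈ M, Module.End.eigenspace T c).comap φ := by
      refine Submodule.span_le.2 ?_
      rintro _ ⟨i, hi, rfl⟩
      exact (le_iSup₂_of_le (μ i) hi le_rfl : Module.End.eigenspace T (μ i) ≤ _)
        (Module.End.mem_eigenspace_iff.2 (hv i))
    exact h2 hy
  rw [h0, Submodule.span_union, Submodule.mem_sup] at hx
  obtain ⟨x₁, hx₁, x₂, hx₂, rfl⟩ := hx
  have h3 : φ x₂ ∈ ⨆ c ∈ M, Module.End.eigenspace T c := by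
    have h4 := Submodule.sub_mem _ hT (h1 M x₁ hx₁)
    rwa [map_add, add_sub_cancel_left] at h4
  have h4 := (Module.End.eigenspaces_iSupIndep T).disjoint_biSup_biSup
    (disjoint_compl_right (a := M))
  have h5 := hφ _ (Submodule.disjoint_def.1 h4 _ h3 (h1 _ _ hx₂))
  rw [h5, add_zero]
  exact hx₁

/-- The eigenvectors of Frobenius. -/
def EigenIndex (A : AbVar p Ω) : Type := {q : Ω × A.H // A.F q.2 = q.1 • q.2 ∧ q.2 ≠ 0}

theorem mem_span_monomials (A : AbVar p Ω) (n : ℕ) (x : ExteriorAlgebra Ω A.H)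
    (hx : x ∈ ⋀[Ω]^n A.H) : x ∈ Submodule.span Ω (Set.range fun f : Fin n → EigenIndex A =>
      ExteriorAlgebra.ιMulti Ω n fun i => (f i).1.2) := by
  have hb : Submodule.span Ω (Set.range fun q : EigenIndex A => q.1.2) = ⊤ := by
    rw [eq_top_iff, ← A.span_eigen]
    refine Submodule.span_le.2 ?_
    rintro v ⟨a, hv⟩
    by_cases h0 : v = 0
    · rw [h0]; exact Submodule.zero_mem _
    · exact Submodule.subset_span ⟨⟨(a, v), hv, h0⟩, rfl⟩
  rw [← exteriorPower.ιMulti_span_fixedDegree_of_span_eq_top Ω n A.H hb] at hx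
  refine Submodule.span_mono ?_ hx
  rintro _ ⟨w, hw, rfl⟩
  obtain ⟨α, rfl⟩ := Set.range_subset_range_iff_exists_comp.mp
    (show Set.range w ⊆ Set.range fun q : EigenIndex A => q.1.2 from hw)
  exact ⟨α, rfl⟩

theorem map_pow_monomial (A : AbVar p Ω) (n s : ℕ) (f : Fin n → EigenIndex A) :
    ExteriorAlgebra.map (A.F ^ s) (ExteriorAlgebra.ιMulti Ω n fun i => (f i).1.2) =
      (∏ i, (f i).1.1) ^ s • ExteriorAlgebra.ιMulti Ω n fun i => (f i).1.2 := by
  rw [map_pow_apply]
  exact Pool.Agent.V8H71.TC.map_pow_iMulti_eigen A.F (fun i => (f i).1.2) (fun i => (f i).1.1)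
    (fun i => (f i).2.1) s

theorem map_monomial (A : AbVar p Ω) (n : ℕ) (f : Fin n → EigenIndex A) :
    ExteriorAlgebra.map A.F (ExteriorAlgebra.ιMulti Ω n fun i => (f i).1.2) =
      (∏ i, (f i).1.1) • ExteriorAlgebra.ιMulti Ω n fun i => (f i).1.2 :=
  Pool.Agent.V8H71.TC.map_iMulti_eigen A.F (fun i => (f i).1.2) (fun i => (f i).1.1)
    (fun i => (f i).2.1)

theorem isIntegral_eigen [IsAlgClosed Ω] (A : AbVar p Ω) (q : EigenIndex A) :
    IsIntegral ℤ q.1.1 :=
  (isWeil_of_eigen A q.2.2 q.2.1).1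

theorem map_mem_exteriorPower {H H' : Type} [AddCommGroup H] [Module Ω H] [AddCommGroup H']
    [Module Ω H'] (h : H →ₗ[Ω] H') {n : ℕ} {y : ExteriorAlgebra Ω H} (hy : y ∈ ⋀[Ω]^n H) :
    ExteriorAlgebra.map h y ∈ ⋀[Ω]^n H' := by
  rw [← ExteriorAlgebra.ιMulti_span_fixedDegree] at hy
  have h1 : Submodule.span Ω (Set.range (ExteriorAlgebra.ιMulti Ω n (M := H))) ≤
      (⋀[Ω]^n H').comap (ExteriorAlgebra.map h).toLinearMap := by
    refine Submodule.span_le.2 ?_
    rintro _ ⟨v, rfl⟩
    change ExteriorAlgebra.map h _ ∈ ⋀[Ω]^n H'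
    rw [ExteriorAlgebra.map_apply_ιMulti]
    exact ExteriorAlgebra.ιMulti_range Ω n ⟨_, rfl⟩
  exact h1 hy

/-- A homogeneous eigenvector of a power of Frobenius whose eigenvalue is divisible by `q ^ r` is
effective. -/
theorem monomial_mem_effective (A : AbVar p Ω) (j r s : ℕ) (hs : 0 < s)
    (f : Fin (j + 2 * r) → EigenIndex A)
    (hint : IsIntegral ℤ ((∏ i, (f i).1.1) ^ s / ((p : Ω) ^ (A.m * r)) ^ s)) :
    (ExteriorAlgebra.ιMulti Ω (j + 2 * r) fun i => (f i).1.2) ∈ Effective A j r := by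
  refine Submodule.subset_span ⟨?_, _, map_monomial A _ f, ?_⟩
  · exact ExteriorAlgebra.ιMulti_range Ω (M := A.H) (j + 2 * r) ⟨_, rfl⟩
  · rw [← div_pow] at hint
    exact IsIntegral.of_pow hs hint

theorem prodMap_pow {H H' : Type} [AddCommGroup H] [Module Ω H] [AddCommGroup H'] [Module Ω H']
    (F : H →ₗ[Ω] H) (F' : H' →ₗ[Ω] H') (t : ℕ) :
    (F.prodMap F') ^ t = (F ^ t).prodMap (F' ^ t) := by
  induction t with
  | zero => rw [pow_zero, pow_zero, pow_zero]; rfl
  | succ t ih => rw [pow_succ, ih, pow_succ, pow_succ]; rfl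

theorem map_pow_inl {H H' : Type} [AddCommGroup H] [Module Ω H] [AddCommGroup H'] [Module Ω H']
    (F : H →ₗ[Ω] H) (F' : H' →ₗ[Ω] H') (t : ℕ) (u : ExteriorAlgebra Ω H) :
    ExteriorAlgebra.map ((F.prodMap F') ^ t) (ExteriorAlgebra.map (LinearMap.inl Ω H H') u) =
      ExteriorAlgebra.map (LinearMap.inl Ω H H') (ExteriorAlgebra.map (F ^ t) u) := by
  have h : ((F.prodMap F') ^ t) ∘ₗ LinearMap.inl Ω H H' = LinearMap.inl Ω H H' ∘ₗ (F ^ t) := by
    rw [prodMap_pow]
    refine LinearMap.ext fun v => ?_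
    simp
  rw [← AlgHom.comp_apply, ExteriorAlgebra.map_comp_map, h, ← ExteriorAlgebra.map_comp_map,
    AlgHom.comp_apply]

theorem map_pow_inr {H H' : Type} [AddCommGroup H] [Module Ω H] [AddCommGroup H'] [Module Ω H']
    (F : H →ₗ[Ω] H) (F' : H' →ₗ[Ω] H') (t : ℕ) (u : ExteriorAlgebra Ω H') :
    ExteriorAlgebra.map ((F.prodMap F') ^ t) (ExteriorAlgebra.map (LinearMap.inr Ω H H') u) =
      ExteriorAlgebra.map (LinearMap.inr Ω H H') (ExteriorAlgebra.map (F' ^ t) u) := by
  have h : ((F.prodMap F') ^ t) ∘ₗ LinearMap.inr Ω H H' = LinearMap.inr Ω H H' ∘ₗ (F' ^ t) := by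
    rw [prodMap_pow]
    refine LinearMap.ext fun v => ?_
    simp
  rw [← AlgHom.comp_apply, ExteriorAlgebra.map_comp_map, h, ← ExteriorAlgebra.map_comp_map,
    AlgHom.comp_apply]

/-- The eigenvalues in the image of a correspondence. -/
theorem image_core {H H' : Type} [AddCommGroup H] [Module Ω H] [AddCommGroup H'] [Module Ω H']
    [FiniteDimensional Ω H'] (F : H →ₗ[Ω] H) (F' : H' →ₗ[Ω] H') {N : ℕ} (b : Basis (Fin N) Ω H')
    (s : ℕ) (Q : Ω) (hQ : Q ≠ 0) {z : ExteriorAlgebra Ω (H × H')}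
    (hz : ExteriorAlgebra.map ((F.prodMap F') ^ s) z = Q • z) {x : ExteriorAlgebra Ω H}
    {y : ExteriorAlgebra Ω H'} (hxyz : z * ExteriorAlgebra.map (LinearMap.inr Ω H H') y =
      ExteriorAlgebra.map (LinearMap.inl Ω H H') x *
        ExteriorAlgebra.map (LinearMap.inr Ω H H') (ExteriorAlgebra.ιMulti Ω N b))
    {ι ι' : Type} (v : ι → ExteriorAlgebra Ω H) (μ : ι → Ω)
    (hv : ∀ i, ExteriorAlgebra.map (F ^ s) (v i) = μ i • v i)
    (hx : x ∈ Submodule.span Ω (Set.range v)) (v' : ι' → ExteriorAlgebra Ω H') (μ' : ι' → Ω)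
    (hv' : ∀ i, ExteriorAlgebra.map (F' ^ s) (v' i) = μ' i • v' i)
    (hint : ∀ i, IsIntegral ℤ (μ' i)) (hy : y ∈ Submodule.span Ω (Set.range v')) :
    x ∈ Submodule.span Ω (v '' {i | IsIntegral ℤ (μ i * (LinearMap.det F') ^ s / Q)}) := by
  let T : Module.End Ω (ExteriorAlgebra Ω (H × H')) :=
    (ExteriorAlgebra.map ((F.prodMap F') ^ s)).toLinearMap
  have hTm : ∀ u w, T (u * w) = T u * T w := fun u w =>
    map_mul (ExteriorAlgebra.map ((F.prodMap F') ^ s)) u w
  have hTz : T z = Q • z := hz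
  have hTl : ∀ u, T (ExteriorAlgebra.map (LinearMap.inl Ω H H') u) =
      ExteriorAlgebra.map (LinearMap.inl Ω H H') (ExteriorAlgebra.map (F ^ s) u) :=
    fun u => map_pow_inl F F' s u
  have hTr : ∀ u, T (ExteriorAlgebra.map (LinearMap.inr Ω H H') u) =
      ExteriorAlgebra.map (LinearMap.inr Ω H H') (ExteriorAlgebra.map (F' ^ s) u) :=
    fun u => map_pow_inr F F' s u
  let M : Set Ω := {c | IsIntegral ℤ (c / Q)}
  -- the eigenvalues on the left hand side
  have hleft : z * ExteriorAlgebra.map (LinearMap.inr Ω H H') y ∈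
      ⨆ c ∈ M, Module.End.eigenspace T c := by
    have h1 : Submodule.span Ω (Set.range v') ≤
        (⨆ c ∈ M, Module.End.eigenspace T c).comap ((LinearMap.mulLeft Ω z).comp
            (ExteriorAlgebra.map (LinearMap.inr Ω H H')).toLinearMap) := by
      refine Submodule.span_le.2 ?_
      rintro _ ⟨f, rfl⟩
      have h2 : Q * μ' f ∈ M := by
        change IsIntegral ℤ (Q * μ' f / Q)
        rw [mul_div_cancel_left₀ _ hQ]
        exact hint f
      have h3 : z * ExteriorAlgebra.map (LinearMap.inr Ω H H') (v' f) ∈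
          Module.End.eigenspace T (Q * μ' f) := by
        rw [Module.End.mem_eigenspace_iff, hTm, hTr, hv', map_smul, hTz, smul_mul_smul_comm]
      exact (le_iSup₂_of_le _ h2 le_rfl : Module.End.eigenspace T (Q * μ' f) ≤ _) h3
    exact h1 hy
  have hTtop : T (ExteriorAlgebra.map (LinearMap.inr Ω H H') (ExteriorAlgebra.ιMulti Ω N b)) =
      (LinearMap.det F') ^ s •
        ExteriorAlgebra.map (LinearMap.inr Ω H H') (ExteriorAlgebra.ιMulti Ω N b) := by
    rw [hTr, map_top_pow, map_smul]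
  let φ : ExteriorAlgebra Ω H →ₗ[Ω] ExteriorAlgebra Ω (H × H') :=
    (LinearMap.mulRight Ω (ExteriorAlgebra.map (LinearMap.inr Ω H H')
      (ExteriorAlgebra.ιMulti Ω N b))).comp (ExteriorAlgebra.map (LinearMap.inl Ω H H')).toLinearMap
  have hφa : ∀ x, φ x = ExteriorAlgebra.map (LinearMap.inl Ω H H') x *
      ExteriorAlgebra.map (LinearMap.inr Ω H H') (ExteriorAlgebra.ιMulti Ω N b) := fun _ => rfl
  have hφ : ∀ x, φ x = 0 → x = 0 := fun x hx => eq_zero_of_mul_top b x (by rw [← hφa]; exact hx)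
  refine mem_span_of_map φ hφ T v (fun i => μ i * (LinearMap.det F') ^ s) ?_ M hx ?_
  · intro i
    rw [hφa, hTm, hTl, hTtop, hv, map_smul, smul_mul_smul_comm]
  · rw [hφa, ← hxyz]
    exact hleft

theorem exists_frob_prod {A C : AbVar p Ω} {hm : A.m = C.m} {n : ℕ}
    {z : ExteriorAlgebra Ω (A.H × C.H)} (h : IsSupersingularClass (A.prod C hm) n z) :
    ∃ s : ℕ, 0 < s ∧ ExteriorAlgebra.map ((A.F.prodMap C.F) ^ (2 * s)) z =
      ((p : Ω) ^ (A.m * n * s)) • z := by
  obtain ⟨-, s, hs, hFz⟩ := h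
  exact ⟨s, hs, hFz⟩

theorem image_effective [IsAlgClosed Ω] (A C : AbVar p Ω) (hm : A.m = C.m) (j r s : ℕ)
    (hs : 0 < s) (x : ExteriorAlgebra Ω A.H) (hx : x ∈ ⋀[Ω]^(j + 2 * r) A.H) (N : ℕ)
    (b : Basis (Fin N) Ω C.H) (y : ExteriorAlgebra Ω C.H) (hy : y ∈ ⋀[Ω]^j C.H)
    (z : ExteriorAlgebra Ω (A.H × C.H))
    (hxyz : z * ExteriorAlgebra.map (LinearMap.inr Ω A.H C.H) y =
      ExteriorAlgebra.map (LinearMap.inl Ω A.H C.H) x *
        ExteriorAlgebra.map (LinearMap.inr Ω A.H C.H) (ExteriorAlgebra.ιMulti Ω N b))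
    (hFz : ExteriorAlgebra.map ((A.F.prodMap C.F) ^ (2 * s)) z =
      ((p : Ω) ^ (A.m * (N + 2 * r) * s)) • z) : x ∈ Effective A j r := by
  have hp : (p : Ω) ≠ 0 := p_ne_zero
  have h3 := image_core A.F C.F b (2 * s) ((p : Ω) ^ (A.m * (N + 2 * r) * s)) (pow_ne_zero _ hp)
    hFz hxyz _ (fun f : Fin (j + 2 * r) → EigenIndex A => (∏ i, (f i).1.1) ^ (2 * s))
    (map_pow_monomial A (j + 2 * r) (2 * s)) (mem_span_monomials A (j + 2 * r) x hx) _
    (fun f : Fin j → EigenIndex C => (∏ i, (f i).1.1) ^ (2 * s))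
    (map_pow_monomial C j (2 * s))
    (fun f => (IsIntegral.prod _ fun i _ => isIntegral_eigen C (f i)).pow _)
    (mem_span_monomials C j y hy)
  refine Submodule.span_le.2 ?_ h3
  rintro _ ⟨f, hf, rfl⟩
  have hf' : IsIntegral ℤ ((∏ i, (f i).1.1) ^ (2 * s) * (LinearMap.det C.F) ^ (2 * s) /
      ((p : Ω) ^ (A.m * (N + 2 * r) * s))) := hf
  refine monomial_mem_effective A j r (2 * s) (Nat.mul_pos two_pos hs) f ?_
  have hD : (LinearMap.det C.F) ^ (2 * s) = (p : Ω) ^ (A.m * N * s) := by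
    rw [pow_mul, det_sq C b, ← pow_mul, ← pow_mul, ← hm, mul_assoc]
  have h4 : (∏ i, (f i).1.1) ^ (2 * s) / ((p : Ω) ^ (A.m * r)) ^ (2 * s) =
      (∏ i, (f i).1.1) ^ (2 * s) * (LinearMap.det C.F) ^ (2 * s) /
        ((p : Ω) ^ (A.m * (N + 2 * r) * s)) := by
    have h5 : (p : Ω) ^ (A.m * (N + 2 * r) * s) =
        ((p : Ω) ^ (A.m * r)) ^ (2 * s) * (p : Ω) ^ (A.m * N * s) := by
      rw [← pow_mul, ← pow_add]
      congr 1
      ring
    rw [h5, hD, mul_div_mul_right _ _ (pow_ne_zero _ hp)]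
  rw [h4]
  exact hf'

/-- **Classes supported in codimension `r` are effective** (for the images under correspondences) if
the homogeneous elements of the system are Tate classes. -/
theorem coniveau_le_effective [IsAlgClosed Ω] {S : CycleSystem p Ω}
    (hS : ∀ (A : AbVar p Ω) (n : ℕ) (x : ExteriorAlgebra Ω A.H), x ∈ S.C A → x ∈ ⋀[Ω]^n A.H →
      IsSupersingularClass A n x) (A : AbVar p Ω) (j r : ℕ) :
    Coniveau S A j r ≤ Effective A j r := by
  refine Submodule.span_le.2 ?_
  rintro x ⟨hx, C, hm, N, b, y, z, hy, hzS, hz, hxyz⟩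
  have h1 := hS (A.prod C hm) (N + 2 * r) z hzS hz
  obtain ⟨s, hs, hFz⟩ := exists_frob_prod h1
  exact image_effective A C hm j r s hs x hx N b y hy z hxyz hFz

/-- Pull-backs of effective classes are effective. -/
theorem effective_pull [IsAlgClosed Ω] {A B : AbVar p Ω} {h : B.H →ₗ[Ω] A.H} (hh : IsHom A B h)
    (j r : ℕ) {y : ExteriorAlgebra Ω B.H} (hy : y ∈ Effective B j r) :
    ExteriorAlgebra.map h y ∈ Effective A j r := by
  obtain ⟨s, t, hs, ht, hst, hc⟩ := hh
  have h1 : Effective B j r ≤ (Effective A j r).comap (ExteriorAlgebra.map h).toLinearMap := by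
    refine Submodule.span_le.2 ?_
    rintro y ⟨hy, b, hb, hint⟩
    change ExteriorAlgebra.map h y ∈ Effective A j r
    have h2 : ExteriorAlgebra.map (B.F ^ t) y = b ^ t • y := by
      rw [map_pow_apply]
      have h3 : (ExteriorAlgebra.map B.F).toLinearMap y = b • y := hb
      clear hst hc hint ht
      induction t with
      | zero => simp
      | succ t ih => rw [pow_succ, Module.End.mul_apply, h3, map_smul, ih, smul_smul, pow_succ, mul_comm]
    have h3 : ExteriorAlgebra.map (A.F ^ s) (ExteriorAlgebra.map h y) =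
        b ^ t • ExteriorAlgebra.map h y := by
      rw [← AlgHom.comp_apply, ExteriorAlgebra.map_comp_map, ← hc, ← ExteriorAlgebra.map_comp_map,
        AlgHom.comp_apply, h2, map_smul]
    have h4 : ExteriorAlgebra.map h y ∈ ⋀[Ω]^(j + 2 * r) A.H := map_mem_exteriorPower h hy
    have h5 := mem_span_eigen A.F A.span_eigen (j + 2 * r) s _ _ h4 h3
    refine Submodule.span_le.2 ?_ h5
    rintro _ ⟨v, a, hv0, hv, hprod, rfl⟩
    refine monomial_mem_effective A j r s hs (fun i => ⟨(a i, v i), hv i, hv0 i⟩) ?_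
    change IsIntegral ℤ ((∏ i, a i) ^ s / _)
    rw [← Finset.prod_pow, hprod]
    have h6 : b ^ t / ((p : Ω) ^ (A.m * r)) ^ s = (b / (p : Ω) ^ (B.m * r)) ^ t := by
      rw [div_pow, ← pow_mul, ← pow_mul]
      congr 2
      rw [show A.m * r * s = (s * A.m) * r by ring, hst]
      ring
    rw [h6]
    exact hint.pow _
  exact h1 hy

/-- **Classes supported in codimension `r` are effective** if the homogeneous elements of the system
are Tate classes. -/
theorem supported_le_effective [IsAlgClosed Ω] {S : CycleSystem p Ω}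
    (hS : ∀ (A : AbVar p Ω) (n : ℕ) (x : ExteriorAlgebra Ω A.H), x ∈ S.C A → x ∈ ⋀[Ω]^n A.H →
      IsSupersingularClass A n x) (A : AbVar p Ω) (j r : ℕ) :
    Supported S A j r ≤ Effective A j r := by
  refine Submodule.span_le.2 ?_
  rintro _ ⟨B, h, y, hh, hy, rfl⟩
  exact effective_pull hh j r (coniveau_le_effective hS B j r hy)

end

end Pool.Agent.V8H94.CT
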