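import Pool.Agent.V8H94.CT.Box
import Pool.Agent.V8H77.NT.BoxN

/-!
# All Tate classes for the abelian varieties with Frobenius eigenvalues in a box
-/

set_option autoImplicit false
set_option linter.unusedSectionVars false

namespace Pool.Agent.V8H94.CT

open Module Polynomial

variable {p : ℕ} [Fact p.Prime] {Ω : Type} [Field Ω] [CharZero Ω]

section

variable [IsAlgClosed Ω] {S : CycleSystem p Ω} {k : ℕ} {W : Set Ω}

variable {X : Type} [Fintype X] {inv : X → X} {e : X → ℕ} {τ : Ω → X → ℤ}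

/-- All Tate classes on the abelian varieties with Frobenius eigenvalues in the box. -/
theorem tate_mem_box (B : Base S k W) (hB : IsBox p k W inv e τ) (A : AbVar p Ω) (hAm : A.m = 2 * k)
    (hAW : ∀ (a : Ω) (v : A.H), v ≠ 0 → A.F v = a • v → a ∈ W) (r : ℕ)
    (x : ExteriorAlgebra Ω A.H) (hx : IsTate A r x) : x ∈ S.C A := by
  obtain ⟨hx, s, hs, hT⟩ := hx
  have h1 := mem_span_eigen A.F A.span_eigen (2 * r) s _ x hx hT
  refine Submodule.span_le.2 ?_ h1
  rintro _ ⟨v, a, hv0, hv, hprod, rfl⟩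
  have haW : ∀ i, a i ∈ W := fun i => hAW (a i) (v i) (hv0 i) (hv i)
  let l : List W := List.ofFn fun i => ⟨a i, haW i⟩
  have hl : l.length = 2 * r := List.length_ofFn
  have hla : (l.map Subtype.val) = List.ofFn a := by
    simp only [l, List.map_ofFn]
    rfl
  have hrel := B.rel_of_box hB l hl hs (by
    rw [hla, List.prod_ofFn, ← Finset.prod_pow, hprod, hAm, ← pow_mul, ← pow_mul]
    congr 1
    ring)
  rw [hla] at hrel
  have h4 := hrel A hAm ((List.ofFn fun i => (a i, v i) : List (Ω × A.H)) : Multiset (Ω × A.H)) (by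
      intro y hy
      rw [Multiset.mem_coe] at hy
      obtain ⟨i, rfl⟩ := (List.mem_ofFn' _ y).1 hy
      exact hv i)
    (by
      rw [Multiset.map_coe, List.map_ofFn]
      rfl)
  have h6 := h4 (List.ofFn v) (by
    rw [Multiset.map_coe, List.map_ofFn]
    rfl)
  rw [SetLike.mem_coe, ← ofFn_wedge]
  exact h6

/-- Eigenvectors on a variety with eigenvalues in `W` up to powers come from a variety with
eigenvalues in `W`. -/
theorem exists_cover_box (hk : 0 < k)
    (hWw : ∀ w ∈ W, IsWeil p k w)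
    (hWr : ∀ w ∈ W, ∀ z : Ω, aeval z (minpoly ℚ w) = 0 → z ∈ W) {C : AbVar p Ω}
    (hC : EigenIn k W C) {n : ℕ} (v : Fin n → C.H) (b : Fin n → Ω) (hv0 : ∀ l, v l ≠ 0)
    (hv : ∀ l, C.F (v l) = b l • v l) :
    ∃ (D : AbVar p Ω) (h : D.H →ₗ[Ω] C.H) (u : Fin n → D.H) (w : Fin n → Ω) (I : ℕ),
      0 < I ∧ D.m = k ∧ (∀ (a : Ω) (v : D.H), v ≠ 0 → D.F v = a • v → a ∈ W) ∧ IsHom C D h ∧
      (∀ l, D.F (u l) = w l • u l) ∧ (∀ l, h (u l) = v l) ∧ (∀ l, w l ∈ W) ∧
      ∀ l, b l ^ (k * I) = w l ^ (C.m * I) := by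
  choose w hwW i' j' hi' hj' hij hbw using fun l => hC (b l) (v l) (hv0 l) (hv l)
  obtain ⟨I, hI, hIw⟩ : ∃ I : ℕ, 0 < I ∧ ∀ l, b l ^ (k * I) = w l ^ (C.m * I) := by
    refine ⟨∏ l, i' l, Finset.prod_pos fun l _ => hi' l, fun l => ?_⟩
    obtain ⟨t, ht⟩ := Finset.dvd_prod_of_mem i' (Finset.mem_univ l)
    rw [ht, show k * (i' l * t) = i' l * (k * t) by ring, pow_mul, hbw, ← pow_mul,
      show C.m * (i' l * t) = j' l * (k * t) by
        rw [show C.m * (i' l * t) = (i' l * C.m) * t by ring, hij]; ring]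
  obtain ⟨D, u, hDm, hDW, hu, hD⟩ := exists_universal' (p := p) hk hWr w
    fun l => ⟨hWw _ (hwW l), hwW l⟩
  obtain ⟨h, hh, hhu⟩ := hD C (k * I) (C.m * I) v (by
    intro l
    rw [pow_apply_eigen (hv _), hIw])
  exact ⟨D, h, u, w, I, hI, hDm, hDW, ⟨k * I, C.m * I, Nat.mul_pos hk hI, Nat.mul_pos C.m_pos hI, by
    rw [hDm]; ring, hh⟩, hu, hhu, hwW, hIw⟩

/-- The same for all varieties which are built from factors of them. -/
theorem tate_mem_of_box (hk : 0 < k) (hWw : ∀ w ∈ W, IsWeil p k w)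
    (hWr : ∀ w ∈ W, ∀ z : Ω, aeval z (minpoly ℚ w) = 0 → z ∈ W)
    (hS : ∀ B : AbVar p Ω, B.m = k →
      (∀ (a : Ω) (v : B.H), v ≠ 0 → B.F v = a • v → a ∈ W) →
      ∀ (r : ℕ) (x : ExteriorAlgebra Ω B.H), IsTate B r x → x ∈ S.C B) {C : AbVar p Ω}
    (hC : EigenIn k W C) (r : ℕ) (x : ExteriorAlgebra Ω C.H) (hx : IsTate C r x) : x ∈ S.C C := by
  obtain ⟨hx, s, hs, hT⟩ := hx
  have h1 := mem_span_eigen C.F C.span_eigen (2 * r) s _ x hx hT
  refine Submodule.span_le.2 ?_ h1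
  rintro _ ⟨v, b, hv0, hv, hprod, rfl⟩
  obtain ⟨D, h, u, w, I, hI, hDm, hDW, hhom, hu, hhu, hwW, hbw⟩ :=
    exists_cover_box hk hWw hWr hC v b hv0 hv
  let U : List (Ω × D.H) := List.ofFn fun l => (w l, u l)
  have hU : ∀ x ∈ U, D.F x.2 = x.1 • x.2 := by
    intro x hx
    obtain ⟨l, rfl⟩ := (List.mem_ofFn' _ x).1 hx
    exact hu l
  have hU1 : U.map Prod.fst = List.ofFn w := by
    simp only [U, List.map_ofFn]
    rfl
  have hU2 : U.map Prod.snd = List.ofFn u := by
    simp only [U, List.map_ofFn]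
    rfl
  have hD : IsTate D r (wedge (U.map Prod.snd)) := by
    refine ⟨?_, C.m * I * s, Nat.mul_pos (Nat.mul_pos C.m_pos hI) hs, ?_⟩
    · have := wedge_mem (R := Ω) (U.map Prod.snd)
      rwa [List.length_map, show U.length = 2 * r from List.length_ofFn] at this
    · rw [map_pow_wedge_eigen D.F U hU, hU1, List.prod_ofFn]
      congr 1
      calc (∏ l, w l) ^ (C.m * I * s) = ∏ l, (w l ^ (C.m * I)) ^ s := by
            rw [← Finset.prod_pow]
            exact Finset.prod_congr rfl fun l _ => by rw [pow_mul]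
        _ = (∏ l, b l ^ s) ^ (k * I) := by
            rw [← Finset.prod_pow]
            refine Finset.prod_congr rfl fun l _ => ?_
            rw [← hbw l, ← pow_mul, ← pow_mul, mul_comm]
        _ = (p : Ω) ^ (D.m * r * (C.m * I * s)) := by
            rw [hprod, hDm, ← pow_mul]
            congr 1
            ring
  have h5 := S.pull C D h hhom _ (hS D hDm hDW r _ hD)
  rw [map_wedge, hU2, List.map_ofFn] at h5
  rw [SetLike.mem_coe, ← ofFn_wedge]
  have e : h ∘ u = v := funext hhu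
  rw [e] at h5
  exact h5


theorem isBuiltFrom_refl (B : AbVar p Ω) : IsBuiltFrom B B :=
  ⟨1, 1, one_pos, one_pos, rfl, fun a v hv h => ⟨a, v, hv, h, rfl⟩⟩

/-- There are common exponents for all eigenvalues. -/
theorem isBuiltFrom_of_eigenIn (hk : 0 < k) {A B : AbVar p Ω} (hBm : B.m = k)
    (hB : ∀ w ∈ W, HasEigen B w) (hA : EigenIn k W A) : IsBuiltFrom A B := by
  classical
  have hfin : {a : Ω | HasEigen A a}.Finite :=
    (A.F.charpoly.rootSet_finite Ω).subset fun a ha => by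
      obtain ⟨v, hv, h⟩ := ha
      have h1 : Module.End.HasEigenvalue A.F a :=
        Module.End.hasEigenvalue_of_hasEigenvector ⟨Module.End.mem_eigenspace_iff.2 h, hv⟩
      rw [Module.End.hasEigenvalue_iff_isRoot_charpoly] at h1
      rw [mem_rootSet]
      exact ⟨(LinearMap.charpoly_monic _).ne_zero, by simpa [aeval_def] using h1⟩
  have h1 : ∀ a : {a : Ω | HasEigen A a}, ∃ w ∈ W, ∃ i j : ℕ, 0 < i ∧ 0 < j ∧
      i * A.m = j * k ∧ a.1 ^ i = w ^ j := by
    rintro ⟨a, v, hv, h⟩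
    exact hA a v hv h
  choose w hwW i j hi hj hij haw using h1
  have := hfin.fintype
  refine ⟨k * ∏ a, i a, A.m * ∏ a, i a, Nat.mul_pos hk (Finset.prod_pos fun a _ => hi a),
    Nat.mul_pos A.m_pos (Finset.prod_pos fun a _ => hi a), by rw [hBm]; ring, ?_⟩
  intro a v hv h
  let a' : {a : Ω | HasEigen A a} := ⟨a, v, hv, h⟩
  obtain ⟨u, hu, hu'⟩ := hB (w a') (hwW a')
  refine ⟨w a', u, hu, hu', ?_⟩
  obtain ⟨t, ht⟩ := Finset.dvd_prod_of_mem i (Finset.mem_univ a')
  rw [ht, show k * (i a' * t) = i a' * (k * t) by ring, pow_mul]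
  have e1 := haw a'
  change a ^ i a' = w a' ^ j a' at e1
  rw [e1, ← pow_mul]
  congr 1
  calc j a' * (k * t) = (j a' * k) * t := by ring
    _ = (i a' * A.m) * t := by rw [hij]
    _ = A.m * (i a' * t) := by ring

theorem eigenIn_of_isBuiltFrom {C B : AbVar p Ω} (hBm : B.m = k)
    (hB : ∀ (a : Ω) (v : B.H), v ≠ 0 → B.F v = a • v → a ∈ W) (hC : IsBuiltFrom C B) :
    EigenIn k W C := by
  obtain ⟨s, t, hs, ht, hst, h⟩ := hC
  intro a v hv hav
  obtain ⟨b, u, hu, hub, hab⟩ := h a v hv hav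
  exact ⟨b, hB b u hu hub, s, t, hs, ht, by rw [hst, hBm], hab⟩

/-- All Tate classes and the generalised Tate conjecture for all varieties built from factors
of `B`. -/
def GeneralisedTateHoldsFor (S : CycleSystem p Ω) (B : AbVar p Ω) : Prop :=
  ∀ C : AbVar p Ω, IsBuiltFrom C B → ∀ j r : ℕ, Effective C j r ≤ Supported S C j r

/-- **Codimension two suffices for the Tate conjecture and the generalised Tate conjecture.** -/
theorem exists_closed_box (A : AbVar p Ω) : ∃ B : AbVar p Ω, IsBuiltFrom A B ∧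
    (∀ b : Ω, HasEigen B b → ∃ s : ℕ, 0 < s ∧
      b ^ s ∈ IntermediateField.adjoin ℚ {a : Ω | HasEigen A a}) ∧
    ∀ S : CycleSystem p Ω, TateHolds S B 1 →
      List.TFAE [TateHoldsFor S B ∧ GeneralisedTateHoldsFor S B, TateHolds S B 2,
        SupersingularProducts S B] := by
  classical
  obtain ⟨κ, W, X, _, inv, e, τ, hbox, hWfin, hAW, hfld⟩ := Pool.Agent.V8H77.NT.exists_isBox' A
  have hκ := hbox.κ_pos
  have := hWfin.fintype
  obtain ⟨B, u, hBm, hBW, hu, hB⟩ := exists_universal' (p := p) (k := 2 * κ)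
    (Nat.mul_pos two_pos hκ) hbox.root (J := Fin 4 × W) (fun j => j.2.1)
    (fun j => ⟨hbox.weil _ j.2.2, j.2.2⟩)
  have heig : ∀ b ∈ W, HasEigen B b := by
    intro b hb
    refine ⟨u (0, ⟨b, hb⟩), ?_, hu _⟩
    intro hzero
    obtain ⟨D, n', e, c, hDm, he1, _, _, i, hi⟩ := exists_isotypic (p := p)
      (Nat.mul_pos two_pos hκ) (hbox.weil b hb)
    obtain ⟨h, _, hhu⟩ := hB D 1 1 (fun j => if j = (0, ⟨b, hb⟩) then e (Sum.inl i) else 0) (by
      intro j
      by_cases hj : j = (0, ⟨b, hb⟩)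
      · rw [if_pos hj, hj, pow_one, pow_one, he1, hi]
      · rw [if_neg hj, map_zero, smul_zero])
    have h1 := hhu (0, ⟨b, hb⟩)
    rw [hzero, map_zero, if_pos rfl] at h1
    exact e.ne_zero (Sum.inl i) h1.symm
  refine ⟨B, isBuiltFrom_of_eigenIn (Nat.mul_pos two_pos hκ) hBm heig hAW, ?_, fun S hdiv => ?_⟩
  · rintro b ⟨w, hw, h⟩
    exact hfld b (hBW b w hw h)
  · tfae_have 1 → 2 := fun H => H.1 B (isBuiltFrom_refl B) 2
    tfae_have 2 → 3 := fun H x y hx hy => H _ (isTate_mul hx hy)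
    tfae_have 3 → 1 := by
      intro H
      have hbase : Base S κ W := base_of_universal hκ hbox.weil hbox.root hbox.base B hBm u hu hB
        hdiv H
      have hS := tate_mem_box hbase hbox
      refine ⟨fun C hC r x hx => ?_, fun C hC j r => ?_⟩
      · exact tate_mem_of_box (Nat.mul_pos two_pos hκ) hbox.weil hbox.root hS
          (eigenIn_of_isBuiltFrom hBm hBW hC) r x hx
      · exact effective_le_supported hbox hS C (eigenIn_of_isBuiltFrom hBm hBW hC) j r
    tfae_finish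

end

end Pool.Agent.V8H94.CT
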