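import Mathlib

/-!
# Eigenvectors in exterior powers
-/

set_option autoImplicit false

namespace Pool.Agent.V8H71.TC

section General

variable {K V : Type*} [Field K] [AddCommGroup V] [Module K V]

/-- An eigenvector in the span of a family of eigenvectors lies in the span of the members of the
family with the same eigenvalue. -/
theorem mem_span_eigen (T : Module.End K V) {ι : Type*} (v : ι → V) (μ : ι → K)
    (hv : ∀ i, T (v i) = μ i • v i) (c : K) {x : V} (hx : x ∈ Submodule.span K (Set.range v))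
    (hT : T x = c • x) : x ∈ Submodule.span K (v '' {i | μ i = c}) := by
  classical
  rw [Finsupp.mem_span_range_iff_exists_finsupp] at hx
  obtain ⟨a, rfl⟩ := hx
  set x₁ : V := (a.filter fun i => μ i = c).sum fun i r => r • v i with hx₁
  set x₂ : V := (a.filter fun i => ¬ μ i = c).sum fun i r => r • v i with hx₂
  have hsum : (a.sum fun i r => r • v i) = x₁ + x₂ := by
    have h := Finsupp.sum_add_index' (f := a.filter fun i => μ i = c)
      (g := a.filter fun i => ¬ μ i = c) (h := fun i (r : K) => r • v i)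
      (fun i => zero_smul K (v i)) (fun i r r' => add_smul r r' (v i))
    rw [Finsupp.filter_add_filter_not] at h
    exact h
  have h₁ : x₁ ∈ Submodule.span K (v '' {i | μ i = c}) := by
    rw [hx₁]
    refine Submodule.sum_mem _ fun i hi => Submodule.smul_mem _ _ (Submodule.subset_span ⟨i, ?_, rfl⟩)
    have := Finsupp.support_filter (fun i => μ i = c) a ▸ hi
    exact (Finset.mem_filter.1 this).2
  have h₁e : x₁ ∈ Module.End.eigenspace T c := by
    refine (Submodule.span_le.2 ?_) h₁
    rintro _ ⟨i, hi, rfl⟩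
    rw [SetLike.mem_coe, Module.End.mem_eigenspace_iff, hv i, show μ i = c from hi]
  have h₂ : x₂ ∈ ⨆ j ≠ c, Module.End.eigenspace T j := by
    rw [hx₂]
    refine Submodule.sum_mem _ fun i hi => Submodule.smul_mem _ _ ?_
    have := Finsupp.support_filter (fun i => ¬ μ i = c) a ▸ hi
    have hne : μ i ≠ c := (Finset.mem_filter.1 this).2
    exact (le_iSup₂_of_le (μ i) hne le_rfl : Module.End.eigenspace T (μ i) ≤ _)
      (Module.End.mem_eigenspace_iff.2 (hv i))
  have h₂e : x₂ ∈ Module.End.eigenspace T c := by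
    have : x₂ = (a.sum fun i r => r • v i) - x₁ := by rw [hsum]; abel
    rw [this]
    exact Submodule.sub_mem _ (Module.End.mem_eigenspace_iff.2 hT) h₁e
  have h0 : x₂ = 0 := by
    have := (Module.End.eigenspaces_iSupIndep T) c
    exact Submodule.disjoint_def.1 this x₂ h₂e h₂
  rw [hsum, h0, add_zero]
  exact h₁

end General

section Ext

variable {K H : Type*} [Field K] [AddCommGroup H] [Module K H]

theorem map_iMulti_eigen (F : H →ₗ[K] H) {n : ℕ} (v : Fin n → H) (a : Fin n → K)
    (hv : ∀ i, F (v i) = a i • v i) :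
    ExteriorAlgebra.map F (ExteriorAlgebra.ιMulti K n v) =
      (∏ i, a i) • ExteriorAlgebra.ιMulti K n v := by
  rw [ExteriorAlgebra.map_apply_ιMulti]
  have : (F ∘ v) = fun i => a i • v i := funext fun i => hv i
  rw [this, AlternatingMap.map_smul_univ]

theorem map_pow_iMulti_eigen (F : H →ₗ[K] H) {n : ℕ} (v : Fin n → H) (a : Fin n → K)
    (hv : ∀ i, F (v i) = a i • v i) (s : ℕ) :
    ((ExteriorAlgebra.map F).toLinearMap ^ s) (ExteriorAlgebra.ιMulti K n v) =
      ((∏ i, a i) ^ s) • ExteriorAlgebra.ιMulti K n v := by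
  induction s with
  | zero => simp
  | succ s ih =>
    rw [pow_succ, Module.End.mul_apply, AlgHom.toLinearMap_apply, map_iMulti_eigen F v a hv, map_smul,
      ih, smul_smul, pow_succ, mul_comm]

/-- A vector `x` of `⋀^n H` with `(⋀ F) ^ s x = c x` is a linear combination of the products
`v 0 ∧ ... ∧ v (n - 1)` of elements `v i` of a basis (or of a spanning family) of eigenvectors of `F`
such that the `s`-th power of the product of their eigenvalues is `c`. -/
theorem mem_span_iMulti {ι : Type*} (F : H →ₗ[K] H) (b : ι → H) (hb : Submodule.span K (Set.range b) = ⊤)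
    (μ : ι → K) (hμ : ∀ i, F (b i) = μ i • b i) {n s : ℕ} {c : K} {x : ExteriorAlgebra K H}
    (hx : x ∈ ⋀[K]^n H) (hT : ((ExteriorAlgebra.map F).toLinearMap ^ s) x = c • x) :
    x ∈ Submodule.span K ((fun f : Fin n → ι => ExteriorAlgebra.ιMulti K n (b ∘ f)) ''
      {f | (∏ i, μ (f i)) ^ s = c}) := by
  refine mem_span_eigen ((ExteriorAlgebra.map F).toLinearMap ^ s)
    (fun f : Fin n → ι => ExteriorAlgebra.ιMulti K n (b ∘ f)) (fun f => (∏ i, μ (f i)) ^ s)
    (fun f => map_pow_iMulti_eigen F (b ∘ f) (fun i => μ (f i)) (fun i => hμ (f i)) s) c ?_ hT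
  rw [← exteriorPower.ιMulti_span_fixedDegree_of_span_eq_top K n H hb] at hx
  refine Submodule.span_mono ?_ hx
  rintro _ ⟨w, hw, rfl⟩
  obtain ⟨α, rfl⟩ := Set.range_subset_range_iff_exists_comp.mp (show Set.range w ⊆ Set.range b from hw)
  exact ⟨α, rfl⟩

/-- The same for a diagonalizable endomorphism: the eigenvectors span `H`. -/
theorem mem_span_iMulti_of_iSup (F : H →ₗ[K] H) (hF : ⨆ μ : K, Module.End.eigenspace F μ = ⊤)
    {n s : ℕ} {c : K} {x : ExteriorAlgebra K H}
    (hx : x ∈ ⋀[K]^n H) (hT : ((ExteriorAlgebra.map F).toLinearMap ^ s) x = c • x) :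
    x ∈ Submodule.span K {y | ∃ (v : Fin n → H) (a : Fin n → K), (∀ i, F (v i) = a i • v i) ∧
      (∀ i, v i ≠ 0) ∧ (∏ i, a i) ^ s = c ∧ y = ExteriorAlgebra.ιMulti K n v} := by
  classical
  let ι := {p : K × H // F p.2 = p.1 • p.2 ∧ p.2 ≠ 0}
  have hb : Submodule.span K (Set.range fun p : ι => p.1.2) = ⊤ := by
    rw [eq_top_iff, ← hF]
    refine iSup_le fun μ => fun x hx => ?_
    by_cases h0 : x = 0
    · rw [h0]; exact Submodule.zero_mem _
    · exact Submodule.subset_span ⟨⟨(μ, x), Module.End.mem_eigenspace_iff.1 hx, h0⟩, rfl⟩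
  refine Submodule.span_mono ?_ (mem_span_iMulti F (fun p : ι => p.1.2) hb (fun p => p.1.1)
    (fun p => p.2.1) hx hT)
  rintro _ ⟨f, hf, rfl⟩
  exact ⟨fun i => (f i).1.2, fun i => (f i).1.1, fun i => (f i).2.1, fun i => (f i).2.2, hf, rfl⟩

end Ext

end Pool.Agent.V8H71.TC
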